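import Pool.Agent.Lib.MP_fb3619_al.Base3

/-!
# CHAIN: the derived configurations
-/

universe u

namespace Pool.Agent.FourGp.H70

variable {G : Type u} [Group G] {H K : Subgroup G} {a b c : G}

theorem chain_step (h : Cfg H K a b c) (hK : K.FG) :
    Cfg (HV (K0 H K) a b c) (K0 H K) a b c ∧ HV (K0 H K) a b c ≤ H ∧ K0 H K ≤ K ∧
      (K0 H K).relIndex K ≠ 0 ∧ (K0 H K).FG := by
  obtain ⟨h1, h2, h3⟩ := part1_k0fi G H K a b c h hK
  obtain ⟨-, -, hinv⟩ := part1_kcls G H K a b c h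
  have hi : ∀ z ∈ H, z * z = 1 → ∀ n ∈ K0 H K, z * n * z ∈ K0 H K := by
    intro z hz hzz n hn
    have := hinv z hz n hn
    rwa [inv_eq_of_mul_eq_one_right hzz] at this
  refine ⟨(part1_subc G H K a b c h (K0 H K) h1 (hi a h.ha h.haa) (hi b h.hb h.hbb)
    (hi c h.hc h.hcc)).1, ?_, h1, h2, h3⟩
  unfold HV
  rw [sup_le_iff, Subgroup.closure_le]
  refine ⟨h1.trans h.le, ?_⟩
  rintro x (rfl | rfl | rfl)
  · exact h.ha
  · exact h.hb
  · exact h.hc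

theorem relIndex_trans {A B C : Subgroup G} (h1 : A ≤ B) (h2 : B ≤ C) (h3 : A.relIndex B ≠ 0)
    (h4 : B.relIndex C ≠ 0) : A.relIndex C ≠ 0 := by
  rw [← Subgroup.relIndex_mul_relIndex A B C h1 h2]
  exact mul_ne_zero h3 h4

/-- CHAIN. -/
theorem chain (hF : FactS.{u}) : ChainS.{u} := by
  intro G _ H K a b c h hK
  obtain ⟨c1, l1, k1, i1, f1⟩ := chain_step h hK
  obtain ⟨c2, l2, k2, i2, f2⟩ := chain_step c1 f1
  obtain ⟨c3, l3, k3, i3, f3⟩ := chain_step c2 f2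
  have i2' := relIndex_trans k2 k1 i2 i1
  exact ⟨c1, c2, l1, l2, k2, k3, f2, i2', relIndex_trans k3 (k2.trans k1) i3 i2',
    hF G _ _ a b c c3⟩

end Pool.Agent.FourGp.H70
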