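import Pool.Agent.Lib.MP_fb3619_al.Base3

/-!
# FACT: `K = B A C`
-/

universe u

namespace Pool.Agent.FourGp.H70

open Equiv

variable {G : Type u} [Group G] {H K : Subgroup G} {a b c : G}

/-- Square roots. -/
theorem exists_sqrt (h : Cfg H K a b c) {x : G} (hx : x ∈ K) :
    ∃ r ∈ K, r * r = x ∧ (∀ z, z * x = x * z → z * r = r * z) ∧
      ∀ z, z * z = 1 → z * x * z = x⁻¹ → z * r * z = r⁻¹ := by
  obtain ⟨n, hn⟩ := h.odd x hx
  refine ⟨x ^ (n + 1), K.pow_mem hx _, ?_, fun z hz => ?_, fun z hz hz' => ?_⟩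
  · rw [← pow_add]
    calc x ^ (n + 1 + (n + 1)) = x ^ (2 * n + 1) * x := by
          rw [← pow_succ]; congr 1; ring
      _ = x := by rw [hn, one_mul]
  · exact (Commute.pow_right (show Commute z x from hz) (n + 1)).eq
  · have key : ∀ m : ℕ, z * x ^ m * z = (x ^ m)⁻¹ := by
      intro m
      induction m with
      | zero => rw [pow_zero, mul_one, hz, inv_one]
      | succ m ih =>
        calc z * x ^ (m + 1) * z = z * (x * x ^ m) * z := by rw [pow_succ']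
          _ = z * x * 1 * x ^ m * z := by group
          _ = z * x * (z * z) * x ^ m * z := by rw [hz]
          _ = (z * x * z) * (z * x ^ m * z) := by group
          _ = (x ^ (m + 1))⁻¹ := by rw [ih, hz', ← mul_inv_rev, pow_succ]
    exact key _

/-- A point `m` with `a m ∈ K` is `r⁻¹ a r` for a square root `r` of `a m`. -/
theorem exists_conj (h : Cfg H K a b c) {p m : G} (hp : p * p = 1) (hm : m * m = 1)
    (hpm : p * m ∈ K) {z : G} (hzp : z * p = p * z) (hzm : z * m = m * z) :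
    ∃ r ∈ K, z * r = r * z ∧ r⁻¹ * p * r = m := by
  obtain ⟨r, hr, hrr, hr1, hr2⟩ := exists_sqrt h hpm
  have e1 : z * (p * m) = p * m * z := by
    rw [← mul_assoc, hzp, mul_assoc, hzm, mul_assoc]
  have e2 : p * (p * m) * p = (p * m)⁻¹ := by
    rw [mul_inv_rev, inv_eq_of_mul_eq_one_right hp, inv_eq_of_mul_eq_one_right hm, ← mul_assoc,
      hp, one_mul]
  refine ⟨r, hr, hr1 z e1, ?_⟩
  have e3 := hr2 p hp e2
  calc r⁻¹ * p * r = p * r * p * p * r := by rw [e3]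
    _ = p * r * (p * p) * r := by group
    _ = p * (r * r) := by rw [hp, mul_one, mul_assoc]
    _ = m := by rw [hrr, ← mul_assoc, hp, one_mul]

/-- FACT. -/
theorem fact : FactS.{u} := by
  intro G _ H K a b c h k hk
  have hkH := h.le hk
  have hg := h.geo
  let y : Pt H := cj H ⟨k, hkH⟩ h.pb
  have hy : y.1 = k⁻¹ * b * k := rfl
  have hby : (inc H K).st h.pb y := by
    show b * (k⁻¹ * b * k) ∈ K
    have e1 := h.nor b h.hb k⁻¹ (K.inv_mem hk)
    have e2 : b * (k⁻¹ * b * k) = b⁻¹ * k⁻¹ * b * k := by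
      rw [inv_eq_of_mul_eq_one_right h.hbb]; group
    rw [e2]
    exact K.mul_mem e1 hk
  obtain ⟨t, ht, hs⟩ := hg.label
  have i1 := hg.perp_st _ _ h.pab
  have i2 := hg.perp_st _ _ h.pbc
  have i3 := hg.perp_st _ _ h.pca
  have i4 : ¬ (inc H K).st y h.pc := by rw [hs] at *; omega
  let m : Pt H := (inc H K).cr y h.pc
  have hym : (inc H K).perp y m := hg.cr_l _ _ i4
  have hcm : (inc H K).perp h.pc m := hg.cr_r _ _ i4
  have i5 := hg.perp_st _ _ hym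
  have i6 := hg.perp_st _ _ hcm
  have ham : (inc H K).st h.pa m := by
    rw [hs] at *
    have := ht m; have := ht h.pa; have := ht h.pb; have := ht h.pc
    omega
  -- the first conjugation
  obtain ⟨γ, hγ, hγc, hγm⟩ := exists_conj h (p := a) (m := m.1) (z := c) h.haa m.2.2.1 ham
    (h.ca.trans h.ac.symm) hcm.1
  -- the point `y'`
  have hyy : γ * y.1 * γ⁻¹ * (γ * y.1 * γ⁻¹) = 1 := by
    have := y.2.2.1
    calc γ * y.1 * γ⁻¹ * (γ * y.1 * γ⁻¹) = γ * (y.1 * y.1) * γ⁻¹ := by group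
      _ = 1 := by rw [this]; group
  have hbK : b * (γ * y.1 * γ⁻¹) ∈ K := by
    have e1 := h.nor b h.hb γ hγ
    have e2 : b * (γ * y.1 * γ⁻¹) = b⁻¹ * γ * b * (b * y.1) * γ⁻¹ := by
      rw [inv_eq_of_mul_eq_one_right h.hbb]
      calc b * (γ * y.1 * γ⁻¹) = b * γ * 1 * y.1 * γ⁻¹ := by group
        _ = b * γ * (b * b) * y.1 * γ⁻¹ := by rw [h.hbb]
        _ = _ := by group
    rw [e2]
    exact K.mul_mem (K.mul_mem e1 hby) (K.inv_mem hγ)
  have haγ : a * (γ * y.1 * γ⁻¹) = γ * y.1 * γ⁻¹ * a := by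
    have e1 : a = γ * m.1 * γ⁻¹ := by rw [← hγm]; group
    have e2 : y.1 * m.1 = m.1 * y.1 := hym.1
    rw [e1]
    calc γ * m.1 * γ⁻¹ * (γ * y.1 * γ⁻¹) = γ * (m.1 * y.1) * γ⁻¹ := by group
      _ = γ * (y.1 * m.1) * γ⁻¹ := by rw [e2]
      _ = _ := by group
  obtain ⟨α, hα, hαa, hαb⟩ := exists_conj h (p := b) (m := γ * y.1 * γ⁻¹) (z := a) h.hbb hyy hbK
    (h.ab.trans h.ba.symm) haγ
  refine ⟨k * γ⁻¹ * α⁻¹, K.mul_mem (K.mul_mem hk (K.inv_mem hγ)) (K.inv_mem hα), α, hα, γ, hγ,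
    ?_, hαa.symm, hγc.symm, by group⟩
  -- `b` commutes with `k γ⁻¹ α⁻¹`
  have e1 : α⁻¹ * b * α = γ * (k⁻¹ * b * k) * γ⁻¹ := hαb
  calc k * γ⁻¹ * α⁻¹ * b = k * γ⁻¹ * (α⁻¹ * b * α) * α⁻¹ := by group
    _ = k * γ⁻¹ * (γ * (k⁻¹ * b * k) * γ⁻¹) * α⁻¹ := by rw [e1]
    _ = b * (k * γ⁻¹ * α⁻¹) := by group

end Pool.Agent.FourGp.H70
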