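import Pool.Agent.Lib.MP_fb3619_al.Iface

/-!
# NCOM: `NN x` acts as an abelian group on the points of the type of `x`
-/

universe u

namespace Pool.Agent.FourGp.H70

open Equiv

variable {P : Type u} {g : Inc P}

/-- `φ` and `ψ` commute on the points of the type of `x`. -/
def Cm (g : Inc P) (x : P) (φ ψ : Perm P × Perm P) : Prop :=
  ∀ y, g.st y x → φ.1 (ψ.1 y) = ψ.1 (φ.1 y)

theorem Cm.symm {x : P} {φ ψ : Perm P × Perm P} (h : Cm g x φ ψ) : Cm g x ψ φ :=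
  fun y hy => (h y hy).symm

theorem cm_one (x : P) (ψ : Perm P × Perm P) : Cm g x 1 ψ := fun _ _ => rfl

theorem col_st_x (hg : g.IsGeo) {x y : P} {φ : Perm P × Perm P} (hφ : g.Col φ)
    (hy : g.st y x) : g.st (φ.1 y) x :=
  hg.st_trans _ _ _ (hg.st_symm _ _ (hφ.tp y)) hy

theorem cm_mul (hg : g.IsGeo) {x : P} {φ φ' ψ : Perm P × Perm P} (hφ' : g.Col φ')
    (h : Cm g x φ ψ) (h' : Cm g x φ' ψ) : Cm g x (φ * φ') ψ := by
  intro y hy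
  change φ.1 (φ'.1 (ψ.1 y)) = ψ.1 (φ.1 (φ'.1 y))
  rw [h' y hy, h _ (col_st_x hg hφ' hy)]

theorem cm_inv (hg : g.IsGeo) {x : P} {φ ψ : Perm P × Perm P} (hφ : g.Col φ)
    (h : Cm g x φ ψ) : Cm g x φ⁻¹ ψ := by
  intro y hy
  change φ.1⁻¹ (ψ.1 y) = ψ.1 (φ.1⁻¹ y)
  have hφi := hg.col_inv hφ
  have hy' : g.st (φ.1⁻¹ y) x := col_st_x hg hφi hy
  rw [Perm.inv_eq_iff_eq, h _ hy', show φ.1 (φ.1⁻¹ y) = y from φ.1.apply_symm_apply y]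

theorem nn_triv {v x : P} (hv : ¬ g.perp v x) {φ : Perm P × Perm P} (hφ : φ ∈ g.Nn v x) :
    φ = 1 := by
  have e : {φ | ∃ w₁ w₂ n m, g.Ind v x w₁ w₂ n m φ} = (∅ : Set (Perm P × Perm P)) := by
    refine Set.eq_empty_of_forall_notMem ?_
    rintro ψ ⟨w₁, w₂, n, m, hi⟩
    exact hv hi.1.vx
  unfold Inc.Nn at hφ
  rw [e, Subgroup.closure_empty, Subgroup.mem_bot] at hφ
  exact hφ

theorem ncom (h1 : TcrsS.{u}) (h2 : NsamS.{u}) : NcomS.{u} := by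
  intro P g hg hF x φ ψ hφ hψ
  -- generators
  have gen : ∀ (v v' : P) (φ ψ : Perm P × Perm P), φ ∈ g.Nn v x → ψ ∈ g.Nn v' x →
      Cm g x φ ψ := by
    intro v v' φ ψ hφ hψ
    by_cases hv : g.perp v x
    · by_cases hv' : g.perp v' x
      · by_cases hs : g.st v v'
        · exact h2 P g hg hF v v' x φ ψ hv hv' hs (hg.nn_tt hφ) hψ
        · exact h1 P g hg v v' x φ ψ hv hv' hs (hg.nn_tt hφ) (hg.nn_tt hψ)
      · rw [nn_triv hv' hψ]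
        exact (cm_one x φ).symm
    · rw [nn_triv hv hφ]
      exact cm_one x ψ
  -- one generator
  have gen' : ∀ (v : P) (φ : Perm P × Perm P), φ ∈ g.Nn v x → ∀ ψ ∈ g.NN x,
      g.Col ψ ∧ Cm g x φ ψ := by
    intro v φ hφ ψ hψ
    refine Subgroup.closure_induction (p := fun ψ _ => g.Col ψ ∧ Cm g x φ ψ) ?_ ?_ ?_ ?_ hψ
    · rintro ψ ⟨v', hv'⟩
      exact ⟨hg.nn_col hv', gen v v' φ ψ hφ hv'⟩
    · exact ⟨hg.col_one, (cm_one x φ).symm⟩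
    · rintro a b _ _ ⟨ha, ha'⟩ ⟨hb, hb'⟩
      exact ⟨hg.col_mul ha hb, (cm_mul hg hb ha'.symm hb'.symm).symm⟩
    · rintro a _ ⟨ha, ha'⟩
      exact ⟨hg.col_inv ha, (cm_inv hg ha ha'.symm).symm⟩
  have all : g.Col φ ∧ Cm g x φ ψ := by
    refine Subgroup.closure_induction (p := fun φ _ => g.Col φ ∧ Cm g x φ ψ) ?_ ?_ ?_ ?_ hφ
    · rintro φ ⟨v, hv⟩
      exact ⟨hg.nn_col hv, (gen' v φ hv ψ hψ).2⟩
    · exact ⟨hg.col_one, cm_one x ψ⟩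
    · rintro a b _ _ ⟨ha, ha'⟩ ⟨hb, hb'⟩
      exact ⟨hg.col_mul ha hb, cm_mul hg hb ha' hb'⟩
    · rintro a _ ⟨ha, ha'⟩
      exact ⟨hg.col_inv ha, cm_inv hg ha ha'⟩
  exact all.2

end Pool.Agent.FourGp.H70
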