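import Pool.Agent.Lib.MP_fb3619_al.Iface

/-!
# REP: projective representations by rotations
-/

universe u

namespace Pool.Agent.FourGp.H70

open Matrix

section rot

variable {R : Type u} [CommRing R]

theorem int_two : IsIntegral ℤ (2 : R) := by
  simpa using (isIntegral_algebraMap (R := ℤ) (A := R) (x := 2))

theorem int_ent {C S : R} (hC : IsIntegral ℤ (2 * C)) (hS : IsIntegral ℤ (2 * S))
    (i j : Fin 3) : IsIntegral ℤ (2 * rotA C S i j) ∧ IsIntegral ℤ (2 * rotB C S i j) ∧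
      IsIntegral ℤ (2 * rotC C S i j) := by
  have h0 : IsIntegral ℤ (2 * (0 : R)) := by rw [mul_zero]; exact isIntegral_zero
  have h1 : IsIntegral ℤ (2 * (1 : R)) := by rw [mul_one]; exact int_two
  have h2 : IsIntegral ℤ (2 * (-S)) := by rw [mul_neg]; exact hS.neg
  refine ⟨?_, ?_, ?_⟩ <;> fin_cases i <;> fin_cases j <;>
    first | exact h0 | exact h1 | exact h2 | exact hC | exact hS

theorem rotA_orth {C S : R} (h : C * C + S * S = 1) : (rotA C S)ᵀ * rotA C S = 1 := by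
  ext i j
  fin_cases i <;> fin_cases j <;> simp [rotA, Matrix.mul_apply, Fin.sum_univ_three] <;>
    first | linear_combination h | ring1

theorem rotB_orth {C S : R} (h : C * C + S * S = 1) : (rotB C S)ᵀ * rotB C S = 1 := by
  ext i j
  fin_cases i <;> fin_cases j <;> simp [rotB, Matrix.mul_apply, Fin.sum_univ_three] <;>
    first | linear_combination h | ring1

theorem rotC_orth {C S : R} (h : C * C + S * S = 1) : (rotC C S)ᵀ * rotC C S = 1 := by
  ext i j
  fin_cases i <;> fin_cases j <;> simp [rotC, Matrix.mul_apply, Fin.sum_univ_three] <;>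
    first | linear_combination h | ring1

/-- The unit given by an orthogonal matrix. -/
def ounit (M : Matrix (Fin 3) (Fin 3) R) (h : Mᵀ * M = 1) : GL (Fin 3) R :=
  ⟨M, Mᵀ, mul_eq_one_comm.1 h, h⟩

theorem diag_sq {M : Matrix (Fin 3) (Fin 3) R} (h : Mᵀ * M = 1) (v : Fin 3 → R)
    (hv : ∀ i, M.mulVec (Pi.single i 1) = v i • (Pi.single i 1 : Fin 3 → R)) : M * M = 1 := by
  have hM : M = Matrix.diagonal v := by
    ext i j
    have e := congrFun (hv j) i
    rw [Matrix.mulVec_single_one] at e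
    simp only [Matrix.col_apply, Pi.smul_apply, smul_eq_mul] at e
    rw [e]
    by_cases hij : i = j
    · subst hij; simp
    · rw [Matrix.diagonal_apply_ne _ hij, Pi.single_eq_of_ne hij, mul_zero]
  rw [hM] at h ⊢
  rwa [Matrix.diagonal_transpose] at h

end rot

section rel

variable {R : Type u} [CommRing R] {L : Type u} [Group L] {I : Type u}

/-- `w` induces the action of `g`. -/
def Rl (act : I → L → I) (vec : I → Fin 3 → R) (w : GL (Fin 3) R) (g : L) : Prop :=
  ∀ x, ∃ v : Rˣ, w.1.mulVec (vec x) = (v : R) • vec (act x g)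

variable {act : I → L → I} {vec : I → Fin 3 → R}

theorem rl_one (h1 : ∀ x, act x 1 = x) : Rl act vec 1 1 := by
  intro x
  refine ⟨1, ?_⟩
  rw [h1]
  simp

theorem rl_mul (h2 : ∀ x g g', act x (g * g') = act (act x g) g') {w w' : GL (Fin 3) R}
    {g g' : L} (h : Rl act vec w g) (h' : Rl act vec w' g') : Rl act vec (w' * w) (g * g') := by
  intro x
  obtain ⟨v, hv⟩ := h x
  obtain ⟨v', hv'⟩ := h' (act x g)
  refine ⟨v * v', ?_⟩
  rw [h2, Units.val_mul, ← Matrix.mulVec_mulVec, hv, Matrix.mulVec_smul, hv', smul_smul,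
    Units.val_mul]

theorem rl_inv (h1 : ∀ x, act x 1 = x) (h2 : ∀ x g g', act x (g * g') = act (act x g) g')
    {w : GL (Fin 3) R} {g : L} (h : Rl act vec w g) : Rl act vec w⁻¹ g⁻¹ := by
  intro x
  obtain ⟨v, hv⟩ := h (act x g⁻¹)
  rw [← h2, inv_mul_cancel, h1] at hv
  refine ⟨v⁻¹, ?_⟩
  have e1 : (w⁻¹).1.mulVec (w.1.mulVec (vec (act x g⁻¹))) = vec (act x g⁻¹) := by
    rw [Matrix.mulVec_mulVec, ← Units.val_mul, inv_mul_cancel, Units.val_one, Matrix.one_mulVec]
  rw [hv, Matrix.mulVec_smul] at e1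
  rw [← e1, smul_smul, Units.inv_mul, one_smul]

theorem rl_pow (h1 : ∀ x, act x 1 = x) (h2 : ∀ x g g', act x (g * g') = act (act x g) g')
    {w : GL (Fin 3) R} {g : L} (h : Rl act vec w g) : ∀ n : ℕ, Rl act vec (w ^ n) (g ^ n)
  | 0 => by rw [pow_zero, pow_zero]; exact rl_one h1
  | n + 1 => by
    rw [pow_succ', pow_succ]
    exact rl_mul h2 (rl_pow h1 h2 h n) h

end rel

/-- Orthogonal matrices. -/
def OG (R : Type u) [CommRing R] : Subgroup (GL (Fin 3) R) where
  carrier := {w | w.1ᵀ * w.1 = 1}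
  one_mem' := by simp
  mul_mem' := by
    intro a b ha hb
    simp only [Set.mem_ofPred_eq] at ha hb ⊢
    rw [Units.val_mul, Matrix.transpose_mul]
    calc b.1ᵀ * a.1ᵀ * (a.1 * b.1) = b.1ᵀ * (a.1ᵀ * a.1) * b.1 := by
          simp only [Matrix.mul_assoc]
      _ = 1 := by rw [ha, Matrix.mul_one, hb]
  inv_mem' := by
    intro a ha
    simp only [Set.mem_ofPred_eq] at ha ⊢
    have e : (a⁻¹).1 = a.1ᵀ := by
      calc (a⁻¹).1 = a.1ᵀ * a.1 * (a⁻¹).1 := by rw [ha, Matrix.one_mul]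
        _ = a.1ᵀ * (a.1 * (a⁻¹).1) := by rw [Matrix.mul_assoc]
        _ = a.1ᵀ := by rw [← Units.val_mul, mul_inv_cancel, Units.val_one, Matrix.mul_one]
    rw [e, Matrix.transpose_transpose]
    exact mul_eq_one_comm.1 ha

theorem mem_OG {R : Type u} [CommRing R] {w : GL (Fin 3) R} :
    w ∈ OG R ↔ w.1ᵀ * w.1 = 1 := Iff.rfl

theorem rep (h1 : RotiS.{u}) (h2 : LinS.{u}) : RepS.{u} := by
  intro R _ h2R L _ I act a1 a2 vec e he hproj hfix hper F hF hFtop hrot
  classical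
  -- the matrices
  have hm : ∀ g ∈ F, ∃ w : GL (Fin 3) R, Rl act vec w g ∧ w ∈ OG R ∧
      ∀ n > 0, w ^ n = 1 → ∀ i j, IsIntegral ℤ (2 * w.1 i j) ∧
        IsIntegral ℤ (2 * (w⁻¹).1 i j) := by
    intro g hg
    obtain ⟨C, S, hCS, hr | hr | hr⟩ := hrot g hg
    · refine ⟨ounit (rotA C S) (rotA_orth hCS), hr, rotA_orth hCS, fun n hn hw i j => ?_⟩
      have e1 : rotA C S ^ n = 1 := by
        have := congrArg Units.val hw
        rwa [Units.val_pow_eq_pow_val] at this
      obtain ⟨i1, i2⟩ := h1 R C S n hCS hn (Or.inl e1)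
      exact ⟨(int_ent i1 i2 i j).1, (int_ent i1 i2 j i).1⟩
    · refine ⟨ounit (rotB C S) (rotB_orth hCS), hr, rotB_orth hCS, fun n hn hw i j => ?_⟩
      have e1 : rotB C S ^ n = 1 := by
        have := congrArg Units.val hw
        rwa [Units.val_pow_eq_pow_val] at this
      obtain ⟨i1, i2⟩ := h1 R C S n hCS hn (Or.inr (Or.inl e1))
      exact ⟨(int_ent i1 i2 i j).2.1, (int_ent i1 i2 j i).2.1⟩
    · refine ⟨ounit (rotC C S) (rotC_orth hCS), hr, rotC_orth hCS, fun n hn hw i j => ?_⟩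
      have e1 : rotC C S ^ n = 1 := by
        have := congrArg Units.val hw
        rwa [Units.val_pow_eq_pow_val] at this
      obtain ⟨i1, i2⟩ := h1 R C S n hCS hn (Or.inr (Or.inr e1))
      exact ⟨(int_ent i1 i2 i j).2.2, (int_ent i1 i2 j i).2.2⟩
  choose! m hm1 hm2 hm3 using hm
  set M := Subgroup.closure (m '' F) with hM
  -- elements of `M` are orthogonal
  have hMO : M ≤ OG R := by
    rw [hM, Subgroup.closure_le]
    rintro _ ⟨g, hg, rfl⟩
    exact hm2 g hg
  -- elements of `M` induce elements of `L`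
  have hMr : ∀ w ∈ M, ∃ g, Rl act vec w g := by
    intro w hw
    refine Subgroup.closure_induction (p := fun w _ => ∃ g, Rl act vec w g) ?_ ?_ ?_ ?_ hw
    · rintro _ ⟨g, hg, rfl⟩
      exact ⟨g, hm1 g hg⟩
    · exact ⟨1, rl_one a1⟩
    · rintro a b _ _ ⟨g, hg⟩ ⟨g', hg'⟩
      exact ⟨g' * g, rl_mul a2 hg' hg⟩
    · rintro a _ ⟨g, hg⟩
      exact ⟨g⁻¹, rl_inv a1 a2 hg⟩
  -- elements of `L` are induced
  have hLr : ∀ g : L, ∃ w ∈ M, Rl act vec w g := by
    intro g
    have hg : g ∈ Subgroup.closure F := by rw [hFtop]; trivial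
    refine Subgroup.closure_induction (p := fun g _ => ∃ w ∈ M, Rl act vec w g) ?_ ?_ ?_ ?_ hg
    · intro g hg
      exact ⟨m g, Subgroup.subset_closure ⟨g, hg, rfl⟩, hm1 g hg⟩
    · exact ⟨1, M.one_mem, rl_one a1⟩
    · rintro a b _ _ ⟨w, hw, hw'⟩ ⟨z, hz, hz'⟩
      exact ⟨z * w, M.mul_mem hz hw, rl_mul a2 hw' hz'⟩
    · rintro a _ ⟨w, hw, hw'⟩
      exact ⟨w⁻¹, M.inv_mem hw, rl_inv a1 a2 hw'⟩
  -- `M` is periodic
  have hMper : ∀ w ∈ M, ∃ n > 0, w ^ n = 1 := by
    intro w hw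
    obtain ⟨g, hg⟩ := hMr w hw
    obtain ⟨n, hn, hgn⟩ := hper g
    refine ⟨n * 2, by positivity, ?_⟩
    have e1 : Rl act vec (w ^ n) 1 := by
      have := rl_pow a1 a2 hg n
      rwa [hgn] at this
    have e2 : ∀ i, ∃ v : R, (w ^ n).1.mulVec (Pi.single i 1) =
        v • (Pi.single i 1 : Fin 3 → R) := by
      intro i
      obtain ⟨v, hv⟩ := e1 (e i)
      rw [a1, he] at hv
      exact ⟨v, hv⟩
    choose v hv using e2
    have e3 := diag_sq (mem_OG.1 (hMO (M.pow_mem hw n))) v hv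
    apply Units.ext
    rw [pow_mul, pow_two, Units.val_mul, e3, Units.val_one]
  -- `M` is finite
  have hMfin : Finite M := by
    refine h2 R h2R (m '' F) (hF.image m) ?_ hMper
    rintro _ ⟨g, hg, rfl⟩ i j
    obtain ⟨n, hn, hw⟩ := hMper (m g) (Subgroup.subset_closure ⟨g, hg, rfl⟩)
    exact hm3 g hg n hn hw i j
  choose w hwM hw using hLr
  refine Finite.of_injective (fun g => (⟨w g, hwM g⟩ : M)) fun g g' hgg => ?_
  have e1 : w g = w g' := congrArg Subtype.val hgg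
  have e2 : g * g'⁻¹ = 1 := by
    refine hfix _ fun i => ?_
    obtain ⟨v, hv⟩ := hw g (e i)
    obtain ⟨v', hv'⟩ := hw g' (e i)
    rw [e1, hv'] at hv
    have e0 : act (act (e i) g) (g⁻¹ * g') = act (e i) g' := by
      rw [← a2, mul_inv_cancel_left]
    have e3 : act (e i) g = act (e i) g' := by
      rw [← e0]
      refine (hproj _ _ (v⁻¹ * v') ?_).symm
      rw [e0, Units.val_mul, mul_smul, hv, smul_smul, Units.inv_mul, one_smul]
    rw [a2, e3, ← a2, mul_inv_cancel, a1]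
  exact mul_inv_eq_one.1 e2

end Pool.Agent.FourGp.H70
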